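import Pool.Agent.Work.MP_0a826e_ag.Inj

namespace Pool.Agent.Results.MP_0a826e_ag.AllReadings

open Pool.Agent.Work.MP_0a826e_ag
open scoped LinearAlgebra.Projectivization

/-- A degree two endomorphism `f` of complex projective three-space with two irreducible curves.
The curve `Y` is not preperiodic, although it has a Zariski dense set of preperiodic points `x`
whose tangent lines are preperiodic under the induced action; every `f^k x` is a smooth point of
the curve `f^k Y`, the iterated tangent line is the tangent line of `f^k Y`, and `df` is invertible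
at `x` and along the cycle in which the orbit of `x` ends.  The curve `L` is preperiodic, and `df`
is invertible at no point of `L`. -/
theorem result :
    ∃ (F : Fin 4 → MvPolynomial (Fin 4) ℂ) (hF : ∀ v, v ≠ 0 → evalMap F v ≠ 0),
      (∀ i, (F i).IsHomogeneous 2) ∧
      (∃ Y : Set (ℙ ℂ (Fin 4 → ℂ)),
        (∀ k : ℕ, IsSubvariety ((projMap F hF)^[k] '' Y) 1) ∧
        (¬ ∃ m l : ℕ, 1 ≤ l ∧ (projMap F hF)^[m + l] '' Y = (projMap F hF)^[m] '' Y) ∧
        ∃ S ⊆ Y, idealOf S = idealOf Y ∧ ∀ x ∈ S,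
          (Set.range fun k : ℕ => (projMap F hF)^[k] x).Finite ∧
          (∀ k : ℕ,
            (tangentStep F hF)^[k] (x, tangentSpace Y x) =
              ((projMap F hF)^[k] x,
                tangentSpace ((projMap F hF)^[k] '' Y) ((projMap F hF)^[k] x)) ∧
            ((projMap F hF)^[k] x).submodule ≤
              ((tangentStep F hF)^[k] (x, tangentSpace Y x)).2 ∧
            Module.finrank ℂ ((tangentStep F hF)^[k] (x, tangentSpace Y x)).2 = 1 + 1) ∧
          (Set.range fun k : ℕ => (tangentStep F hF)^[k] (x, tangentSpace Y x)).Finite ∧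
          Function.Injective (jac F x.rep) ∧
          ∃ m : ℕ, ∀ k ≥ m, Function.Injective (jac F ((projMap F hF)^[k] x).rep)) ∧
      (∃ L : Set (ℙ ℂ (Fin 4 → ℂ)), IsSubvariety L 1 ∧
        (∃ m l : ℕ, 1 ≤ l ∧ (projMap F hF)^[m + l] '' L = (projMap F hF)^[m] '' L) ∧
        ∀ p ∈ L, ¬ Function.Injective (jac F p.rep)) := by
  obtain ⟨w, hw⟩ := exists_w
  refine ⟨FF w, FF_ne hw, FF_hom w, ⟨YY, image_subvariety hw, ?_,
    (fun u => PP u u) '' good w, ?_, dense_of_infinite (good_infinite' hw), ?_⟩,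
    LL (-w), LL_subvariety _, ⟨2, 1, le_rfl, LL_preperiodic hw⟩, fun p hp => LL_critical hw hp⟩
  · rintro ⟨m, l, hl, h⟩
    exact not_preperiodic hw m l hl h
  · rintro _ ⟨u, _, rfl⟩
    exact (mk_mem_YY _).2 (by simp [pt])
  · rintro _ ⟨u, hg, rfl⟩
    obtain ⟨⟨⟨k, hu⟩, hu'⟩, -⟩ := id hg
    beta_reduce
    rw [tangentSpace_PP]
    refine ⟨orbit_finite hw hu, fun m => ?_, tangent_orbit_finite hw hu hu', jac_inj_good hw hg,
      k, fun m hm => ?_⟩
    · rw [iter_tangent hw hu hu, iter_PP hw hu hu, tangentSpace_image hw hu]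
      exact ⟨rfl, PP_le_WW _ _ _ _, finrank_WW _ _ _ (prod_d2_ne hw hu m)⟩
    · rw [iter_PP hw hu hu]
      exact jac_inj_late hw hu hm

end Pool.Agent.Results.MP_0a826e_ag.AllReadings
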