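import Pool.Agent.Work.MP_0a826e_ag.G.Main

namespace Pool.Agent.Results.MP_0a826e_ag.GoodReduction

open Pool.Agent.Work.MP_0a826e_ag Pool.Agent.Work.MP_0a826e_ag.G
open MvPolynomial IsLocalRing
open scoped LinearAlgebra.Projectivization

/-- Dynamical Manin-Mumford from one place of good reduction: an irreducible closed subset of
complex projective space with a Zariski dense set of preperiodic points is preperiodic as soon as
the map reduces to a Frobenius map, or the reduction of the subset is preperiodic. -/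
theorem result (n d : ℕ) (hd : 2 ≤ d) (O : ValuationSubring ℂ)
    (G : Fin n → MvPolynomial (Fin n) O) (hom : ∀ i, (G i).IsHomogeneous d)
    (hF : ∀ v, v ≠ 0 → emap (fun i => map O.subtype (G i)) v ≠ 0)
    (hG : ∀ v, v ≠ 0 → emap (fun i => map (residue O) (G i)) v ≠ 0)
    (Y S : Set (ℙ ℂ (Fin n → ℂ)))
    (hY : ∀ p : ℙ ℂ (Fin n → ℂ), (∀ g ∈ idealOf Y, eval p.rep g = 0) → p ∈ Y)
    (hirr : (idealOf Y).IsPrime) (_hSY : S ⊆ Y) (hdense : idealOf S = idealOf Y)
    (hpre : ∀ x ∈ S, (Set.range fun j : ℕ => (pmap _ hF)^[j] x).Finite)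
    (hred : (∃ p a : ℕ, p.Prime ∧ d = p ^ a ∧ (p : ResidueField O) = 0 ∧
        ∀ i, map (residue O) (G i) = X i ^ d) ∨
      ∃ m k : ℕ, 1 ≤ k ∧ (pmap _ hG)^[m + k] '' redSet O Y = (pmap _ hG)^[m] '' redSet O Y) :
    ∃ m k : ℕ, 1 ≤ k ∧ (pmap _ hF)^[m + k] '' Y = (pmap _ hF)^[m] '' Y :=
  main hd O G hom hF hG Y S hY hirr hdense hpre hred

end Pool.Agent.Results.MP_0a826e_ag.GoodReduction
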