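import Pool.Agent.Work.MP_0a826e_ag.W.Gen

namespace Pool.Agent.Results.MP_0a826e_ag.WeightedPlane

open Pool.Agent.Work.MP_0a826e_ag.W MvPolynomial

/-- Dynamical Manin-Mumford for the endomorphisms of a complex weighted projective plane that have
a totally invariant coordinate curve: a Zariski closed set with a Zariski dense set of preperiodic
points is preperiodic. -/
theorem result (w : Fin 3 → ℕ) (hw : ∀ i, 0 < w i) (d : ℕ) (hd : 2 ≤ d)
    (F : Fin 3 → MvPolynomial (Fin 3) ℂ) (hom : ∀ i, (F i).IsWeightedHomogeneous w (d * w i))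
    (hF : ∀ v : Fin 3 → ℂ, v ≠ 0 → (fun i => eval v (F i)) ≠ 0)
    (l : MvPolynomial (Fin 3) ℂ) (i : Fin 3) (hl : l.IsWeightedHomogeneous w (w i))
    (hc : coeff (Finsupp.single i 1) l ≠ 0)
    (hinv : wmap w F hF ⁻¹' {p | eval (rep p) l = 0} = {p | eval (rep p) l = 0})
    (Y S : Set (WP w))
    (hY : ∀ (v : Fin 3 → ℂ) (hv : v ≠ 0), (∀ g ∈ wideal w Y, eval v g = 0) → pt w v hv ∈ Y)
    (hSY : S ⊆ Y) (hdense : wideal w S = wideal w Y)
    (hpre : ∀ x ∈ S, (Set.range fun k : ℕ => (wmap w F hF)^[k] x).Finite) :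
    ∃ m n : ℕ, 1 ≤ n ∧ (wmap w F hF)^[m + n] '' Y = (wmap w F hF)^[m] '' Y :=
  general hw hd hom hF hl hc hinv hY hSY hdense hpre

end Pool.Agent.Results.MP_0a826e_ag.WeightedPlane
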